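import Pool.Agent.helper67.TPE.Spec

/-! Row tpe:QUG (MP_ebc808_nt) -/

set_option autoImplicit false

open Finset

noncomputable section

namespace Pool.Agent.TPE

open Pool.Agent.EP Pool.Agent.PQ

theorem QUG_enum (T N : ℕ) (A : ℕ → Finset ℕ) (hA : ∀ x < T, N ≤ #(A x)) :
    ∃ α : ℕ → Fin N → ℕ, ∀ x < T, Function.Injective (α x) ∧ ∀ k, α x k ∈ A x := by
  have h : ∀ x : ℕ, ∃ α : Fin N → ℕ, x < T → Function.Injective α ∧ ∀ k, α k ∈ A x := by
    intro x
    by_cases hx : x < T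
    · exact ⟨(A x).orderEmbOfCardLe (hA x hx), fun _ => ⟨((A x).orderEmbOfCardLe (hA x hx)).injective,
        fun k => Finset.orderEmbOfCardLe_mem _ _ k⟩⟩
    · exact ⟨fun _ => 0, fun h => absurd h hx⟩
  choose α hα using h
  exact ⟨α, fun x hx => hα x hx⟩

theorem QUG : QUG_stmt := by
  classical
  intro T N A C E hA hC h
  obtain ⟨α, hα⟩ := QUG_enum T N A hA
  obtain ⟨γ, hγ⟩ := QUG_enum T N C hC
  have h1 : ∀ kl : Fin N × Fin N, ∃ xy : ℕ × ℕ, xy.1 < T ∧ xy.2 < T ∧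
      (α xy.1 kl.1, γ xy.2 kl.2) ∈ E xy.1 xy.2 := by
    intro kl
    obtain ⟨x, hx, y, hy, hxy⟩ := h (fun x => α x kl.1) (fun y => γ y kl.2)
      (fun x hx => (hα x hx).2 _) (fun y hy => (hγ y hy).2 _)
    exact ⟨(x, y), hx, hy, hxy⟩
  choose φ hφ using h1
  have h2 : #(univ : Finset (Fin N × Fin N)) ≤
      #((range T ×ˢ range T).sigma fun xy => E xy.1 xy.2) := by
    refine card_le_card_of_injOn (fun kl => ⟨φ kl, (α (φ kl).1 kl.1, γ (φ kl).2 kl.2)⟩) ?_ ?_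
    · intro kl _
      obtain ⟨h3, h4, h5⟩ := hφ kl
      simp only [coe_sigma, Set.mem_sigma_iff, mem_coe, mem_product, mem_range]
      exact ⟨⟨h3, h4⟩, h5⟩
    · intro kl _ kl' _ he
      simp only [Sigma.mk.injEq] at he
      obtain ⟨h3, h4⟩ := he
      obtain ⟨h5, h6, -⟩ := hφ kl
      rw [← h3] at h4
      have h7 := eq_of_heq h4
      rw [Prod.mk.injEq] at h7
      exact Prod.ext ((hα _ h5).1 h7.1) ((hγ _ h6).1 h7.2)
  rw [card_sigma, sum_product, card_univ, Fintype.card_prod, Fintype.card_fin, ← sq] at h2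
  exact h2

end Pool.Agent.TPE
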